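import Pool.Agent.H740R3.BQStmts

/-! Task `T1a` of project H740-BQ: independence of exponentials modulo high powers of `X`. -/

set_option autoImplicit false
set_option maxHeartbeats 4000000
set_option synthInstance.maxHeartbeats 400000

namespace Pool.Agent.H740R3.BQ

namespace T1aux

open PowerSeries

/-- the operator `P ↦ P' + j P` -/
noncomputable def T (j : ℕ) (P : Polynomial ℂ) : Polynomial ℂ :=
  Polynomial.derivative P + Polynomial.C (j : ℂ) * P

theorem T_coeff (j : ℕ) (P : Polynomial ℂ) (m : ℕ) :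
    (T j P).coeff m = P.coeff (m + 1) * (m + 1) + j * P.coeff m := by
  rw [T, Polynomial.coeff_add, Polynomial.coeff_derivative, Polynomial.coeff_C_mul]

theorem T_deg (j N : ℕ) (P : Polynomial ℂ) (h : P.degree < N) : (T j P).degree < N := by
  rw [Polynomial.degree_lt_iff_coeff_zero] at h ⊢
  intro m hm
  rw [T_coeff, h m hm, h (m + 1) (by omega)]
  ring

theorem T_iter_deg (j N k : ℕ) (P : Polynomial ℂ) (h : P.degree < N) :
    ((T j)^[k] P).degree < N := by
  induction k generalizing P with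
  | zero => exact h
  | succ k ih =>
    rw [Function.iterate_succ_apply]
    exact ih _ (T_deg j N P h)

theorem T_zero_iter (k : ℕ) : ∀ P : Polynomial ℂ, P.degree < k → (T 0)^[k] P = 0 := by
  induction k with
  | zero =>
    intro P h
    rw [Polynomial.degree_lt_iff_coeff_zero] at h
    ext m
    simpa using h m (Nat.zero_le m)
  | succ k ih =>
    intro P h
    rw [Function.iterate_succ_apply]
    apply ih
    rw [Polynomial.degree_lt_iff_coeff_zero] at h ⊢
    intro m hm
    rw [T_coeff, h (m + 1) (by omega)]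
    simp

theorem T_inj (j : ℕ) (hj : j ≠ 0) (P : Polynomial ℂ) (h : T j P = 0) : P = 0 := by
  by_contra hP
  have h1 := congrArg (fun Q : Polynomial ℂ => Q.coeff P.natDegree) h
  simp only [Polynomial.coeff_zero] at h1
  rw [T_coeff, Polynomial.coeff_eq_zero_of_natDegree_lt (Nat.lt_succ_self _), zero_mul,
    zero_add] at h1
  rcases mul_eq_zero.1 h1 with h2 | h2
  · exact hj (by exact_mod_cast h2)
  · exact hP (Polynomial.leadingCoeff_eq_zero.1 h2)

theorem T_iter_inj (j : ℕ) (hj : j ≠ 0) (k : ℕ) (P : Polynomial ℂ) (h : (T j)^[k] P = 0) :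
    P = 0 := by
  induction k generalizing P with
  | zero => exact h
  | succ k ih =>
    rw [Function.iterate_succ_apply] at h
    exact T_inj j hj P (ih _ h)

theorem d_term (j : ℕ) (P : Polynomial ℂ) :
    d⁄dX ℂ ((P : PowerSeries ℂ) * (exp ℂ) ^ j) = ((T j P : Polynomial ℂ) : PowerSeries ℂ) *
      (exp ℂ) ^ j := by
  rw [Derivation.leibniz, derivative_coe, Derivation.leibniz_pow, derivative_exp, T,
    Polynomial.coe_add, Polynomial.coe_mul, Polynomial.coe_C]
  rcases Nat.eq_zero_or_pos j with hj | hj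
  · subst hj
    simp
  · obtain ⟨i, rfl⟩ : ∃ i, j = i + 1 := ⟨j - 1, by omega⟩
    simp only [Nat.add_sub_cancel, smul_eq_mul, nsmul_eq_mul, map_natCast]
    push_cast
    ring

theorem d_iter (r : ℕ) (P : ℕ → Polynomial ℂ) (k : ℕ) :
    (d⁄dX ℂ)^[k] (∑ j ∈ Finset.range r, (P j : PowerSeries ℂ) * (exp ℂ) ^ j) =
      ∑ j ∈ Finset.range r, (((T j)^[k] (P j) : Polynomial ℂ) : PowerSeries ℂ) * (exp ℂ) ^ j := by
  induction k generalizing P with
  | zero => rfl
  | succ k ih =>
    rw [Function.iterate_succ_apply, map_sum]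
    have h : ∑ j ∈ Finset.range r, d⁄dX ℂ ((P j : PowerSeries ℂ) * (exp ℂ) ^ j) =
        ∑ j ∈ Finset.range r, ((T j (P j) : Polynomial ℂ) : PowerSeries ℂ) * (exp ℂ) ^ j :=
      Finset.sum_congr rfl fun j _ => d_term j (P j)
    rw [h, ih (fun j => T j (P j))]
    rfl

theorem d_dvd (M : ℕ) (f : PowerSeries ℂ) (h : (X : PowerSeries ℂ) ^ (M + 1) ∣ f) :
    (X : PowerSeries ℂ) ^ M ∣ d⁄dX ℂ f := by
  rw [X_pow_dvd_iff] at h ⊢
  intro m hm
  rw [coeff_derivative, h (m + 1) (by omega), zero_mul]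

theorem d_iter_dvd (M k : ℕ) (f : PowerSeries ℂ) (h : (X : PowerSeries ℂ) ^ (M + k) ∣ f) :
    (X : PowerSeries ℂ) ^ M ∣ (d⁄dX ℂ)^[k] f := by
  induction k generalizing f with
  | zero => exact h
  | succ k ih =>
    rw [Function.iterate_succ_apply]
    exact ih _ (d_dvd (M + k) f h)

theorem coe_eq_zero (M : ℕ) (P : Polynomial ℂ) (hP : P.degree < M)
    (h : (X : PowerSeries ℂ) ^ M ∣ (P : PowerSeries ℂ)) : P = 0 := by
  rw [X_pow_dvd_iff] at h
  rw [Polynomial.degree_lt_iff_coeff_zero] at hP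
  ext m
  rw [Polynomial.coeff_zero]
  rcases lt_or_ge m M with hm | hm
  · have := h m hm
    rwa [Polynomial.coeff_coe] at this
  · exact hP m hm

end T1aux

open T1aux PowerSeries in
theorem t1a : T1a := by
  intro r
  induction r with
  | zero =>
    intro N P _ _ j hj
    omega
  | succ r ih =>
    intro N P hdeg hdvd
    have h1 : (X : PowerSeries ℂ) ^ (r * N + N) ∣
        ∑ j ∈ Finset.range (r + 1), (P j : PowerSeries ℂ) * (exp ℂ) ^ j := by
      rw [show r * N + N = (r + 1) * N by ring]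
      exact hdvd
    have h2 := d_iter_dvd (r * N) N _ h1
    rw [d_iter, Finset.sum_range_succ', T_zero_iter N (P 0) (hdeg 0), Polynomial.coe_zero,
      zero_mul, add_zero] at h2
    have h3 : ∑ j ∈ Finset.range r, (((T (j + 1))^[N] (P (j + 1)) : Polynomial ℂ) :
        PowerSeries ℂ) * (exp ℂ) ^ (j + 1) = exp ℂ * ∑ j ∈ Finset.range r,
        (((T (j + 1))^[N] (P (j + 1)) : Polynomial ℂ) : PowerSeries ℂ) * (exp ℂ) ^ j := by
      rw [Finset.mul_sum]
      refine Finset.sum_congr rfl fun j _ => ?_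
      ring
    rw [h3, (isUnit_exp ℂ).dvd_mul_left] at h2
    have h4 := ih N (fun j => (T (j + 1))^[N] (P (j + 1)))
      (fun j => T_iter_deg (j + 1) N N _ (hdeg (j + 1))) h2
    have h5 : ∀ j, j < r → P (j + 1) = 0 := fun j hj =>
      T_iter_inj (j + 1) (by omega) N _ (h4 j hj)
    have h6 : P 0 = 0 := by
      apply coe_eq_zero ((r + 1) * N) (P 0)
      · refine lt_of_lt_of_le (hdeg 0) ?_
        have : N ≤ (r + 1) * N := Nat.le_mul_of_pos_left N (by omega)
        exact_mod_cast this
      · rw [Finset.sum_range_succ'] at hdvd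
        have h7 : ∑ j ∈ Finset.range r, (P (j + 1) : PowerSeries ℂ) * (exp ℂ) ^ (j + 1) = 0 := by
          apply Finset.sum_eq_zero
          intro j hj
          rw [h5 j (Finset.mem_range.1 hj), Polynomial.coe_zero, zero_mul]
        rw [h7, zero_add, pow_zero, mul_one] at hdvd
        exact hdvd
    intro j hj
    rcases Nat.eq_zero_or_pos j with h | h
    · rw [h]; exact h6
    · obtain ⟨i, rfl⟩ : ∃ i, j = i + 1 := ⟨j - 1, by omega⟩
      exact h5 i (by omega)

end Pool.Agent.H740R3.BQ
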